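import Mathlib

set_option autoImplicit false

/-!
# Marked groups and group properties

The definitions in which the own theorem on `MP_7a8588_lc` is stated.
-/

noncomputable section

namespace Pool.Agent.H44I

/-- The space of `n`-generated marked groups, as a set: the normal subgroups of the free group on
`n` generators. -/
def MarkedGroup (n : ℕ) : Type := {N : Subgroup (FreeGroup (Fin n)) // N.Normal}

instance (n : ℕ) (N : MarkedGroup n) : N.1.Normal := N.2

open Classical in
/-- The point of `{0,1}^F` (with `F` free on `n` generators) that a marked group is: the
characteristic function of the normal subgroup. -/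
def MarkedGroup.indicator {n : ℕ} (N : MarkedGroup n) : FreeGroup (Fin n) → Bool :=
  fun g => decide (g ∈ N.1)

/-- The topology of the space of marked groups, induced by the product topology of `{0,1}^F`. -/
instance (n : ℕ) : TopologicalSpace (MarkedGroup n) :=
  TopologicalSpace.induced MarkedGroup.indicator inferInstance

/-- A property that groups may have or not have. -/
abbrev GroupProperty : Type 1 := (G : Type) → [Group G] → Prop

/-- The property is invariant under isomorphism. -/
def IsoInvariant (P : GroupProperty) : Prop :=
  ∀ (G H : Type) [Group G] [Group H], Nonempty (G ≃* H) → (P G ↔ P H)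

/-- The property `P` is Borel in the space of `n`-generated marked groups. -/
def BorelIn (n : ℕ) (P : GroupProperty) : Prop :=
  @MeasurableSet (MarkedGroup n) (borel (MarkedGroup n)) {N : MarkedGroup n | P (FreeGroup (Fin n) ⧸ N.1)}

/-- A group is just-non-`P` if it does not have `P` but all of its quotients by nontrivial normal
subgroups have `P`. -/
def JustNon (P : GroupProperty) : GroupProperty := fun G _ =>
  ¬ P G ∧ ∀ (M : Subgroup G) [M.Normal], M ≠ ⊥ → P (G ⧸ M)

/-- A group is residually `P` if for every `g ≠ 1` there is a normal subgroup that does not contain
`g` and by which the quotient has `P`. -/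
def Residually (P : GroupProperty) : GroupProperty := fun G _ =>
  ∀ g : G, g ≠ 1 → ∃ (M : Subgroup G) (_ : M.Normal), g ∉ M ∧ P (G ⧸ M)

end Pool.Agent.H44I
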