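import Mathlib
import Pool.Agent.Lib.Helper44.MarkedGroups.Final
import Pool.Agent.Lib.H44I.MarkedDefs

set_option autoImplicit false

open MeasureTheory
open scoped commutatorElement

noncomputable section

namespace Pool.Agent.H44I

open Pool.Agent.S14935Aux Pool.Agent.S14935Aux.HallG

/-! ## A perfect group of permutations generated by three elements -/

/-- A permutation of five points. -/
def pa : Equiv.Perm (Fin 5) := ⟨![2, 3, 4, 0, 1], ![3, 4, 0, 1, 2], by decide, by decide⟩

/-- A permutation of five points. -/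
def pb : Equiv.Perm (Fin 5) := ⟨![2, 3, 1, 4, 0], ![4, 2, 0, 1, 3], by decide, by decide⟩

/-- A permutation of five points. -/
def pc : Equiv.Perm (Fin 5) := ⟨![4, 2, 3, 0, 1], ![3, 4, 1, 2, 0], by decide, by decide⟩

lemma pc_eq : pc = ⁅pb, pa⁆ := by unfold pa pb pc; decide

lemma pb_eq : pb = ⁅pa⁻¹, pc⁻¹⁆ := by unfold pa pb pc; decide

lemma pa_eq : pa = ⁅pb⁻¹, pc⁆ := by unfold pa pb pc; decide

lemma pa_ne : pa ≠ 1 := by unfold pa; decide

/-- The homomorphism onto the perfect group generated by the three permutations. -/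
def sHom : FreeGroup (Fin 3) →* Equiv.Perm (Fin 5) := FreeGroup.lift ![pa, pb, pc]

lemma range_le_comm : sHom.range ≤ ⁅sHom.range, sHom.range⁆ := by
  have ha : pa ∈ sHom.range := ⟨FreeGroup.of 0, by simp [sHom]⟩
  have hb : pb ∈ sHom.range := ⟨FreeGroup.of 1, by simp [sHom]⟩
  have hc : pc ∈ sHom.range := ⟨FreeGroup.of 2, by simp [sHom]⟩
  have h1 : sHom.range = Subgroup.closure (Set.range ![pa, pb, pc]) := by
    rw [sHom, FreeGroup.range_lift_eq_closure]
  conv_lhs => rw [h1]
  rw [Subgroup.closure_le]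
  rintro _ ⟨i, rfl⟩
  fin_cases i
  · show pa ∈ ⁅sHom.range, sHom.range⁆
    have h := Subgroup.commutator_mem_commutator (Subgroup.inv_mem _ hb) hc
    rwa [← pa_eq] at h
  · show pb ∈ ⁅sHom.range, sHom.range⁆
    have h := Subgroup.commutator_mem_commutator (Subgroup.inv_mem _ ha) (Subgroup.inv_mem _ hc)
    rwa [← pb_eq] at h
  · show pc ∈ ⁅sHom.range, sHom.range⁆
    have h := Subgroup.commutator_mem_commutator hb ha
    rwa [← pc_eq] at h

lemma map_D (k : ℕ) : (derivedSeries (FreeGroup (Fin 3)) k).map sHom = sHom.range := by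
  induction k with
  | zero => rw [derivedSeries_zero, MonoidHom.range_eq_map]
  | succ k ih =>
    rw [derivedSeries_succ, Subgroup.map_commutator, ih]
    refine le_antisymm ?_ range_le_comm
    rw [Subgroup.commutator_le]
    intro x hx y hy
    rw [commutatorElement_def]
    exact mul_mem (mul_mem (mul_mem hx hy) (inv_mem hx)) (inv_mem hy)

/-- Every value of `sHom` is taken on every derived subgroup. -/
lemma exists_D (k : ℕ) (w : FreeGroup (Fin 3)) :
    ∃ v ∈ derivedSeries (FreeGroup (Fin 3)) k, sHom v = sHom w := by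
  have h : sHom w ∈ (derivedSeries (FreeGroup (Fin 3)) k).map sHom := by
    rw [map_D]; exact ⟨w, rfl⟩
  exact h

/-! ## Solvability of `HallG` -/

instance : Group.IsSolvable HallQ := by
  let f : Multiplicative (LaurentPolynomial ℤ × LaurentPolynomial ℤ) →* HallQ :=
    { toFun := fun v => ⟨v.toAdd.1, v.toAdd.2, 0⟩
      map_one' := rfl
      map_mul' := by intro x y; ext1 <;> simp [add_comm] }
  let g : HallQ →* Multiplicative ℤ :=
    { toFun := fun x => Multiplicative.ofAdd x.n
      map_one' := rfl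
      map_mul' := fun _ _ => rfl }
  apply Group.isSolvable_of_ker_le_range f g
  intro x hx
  have hn : x.n = 0 := hx
  exact ⟨Multiplicative.ofAdd (x.f, x.g), by ext1 <;> simp [f, hn]⟩

instance : Group.IsSolvable HallG := by
  apply Group.isSolvable_of_ker_le_range zHom toQ
  intro x hx
  rw [MonoidHom.mem_ker, toQ_eq_one] at hx
  exact ⟨Multiplicative.ofAdd x.h, hx.symm⟩

/-- Some derived subgroup of the free group is killed by the marking of `HallG`. -/
lemma exists_D_le : ∃ k, derivedSeries (FreeGroup (Fin 3)) k ≤ mark.ker := by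
  obtain ⟨k, hk⟩ := (Group.isSolvable_def HallG).1 inferInstance
  refine ⟨k, ?_⟩
  rw [← Subgroup.map_eq_bot_iff, eq_bot_iff, ← hk]
  exact map_derivedSeries_le_derivedSeries _ _

/-- The degree of solvability. -/
def kk : ℕ := exists_D_le.choose

lemma D_kk_le : derivedSeries (FreeGroup (Fin 3)) kk ≤ mark.ker := exists_D_le.choose_spec

lemma D_kk_le_NJ (J : Set ℕ) : derivedSeries (FreeGroup (Fin 3)) kk ≤ NJ J := by
  intro w hw
  have h := D_kk_le hw
  rw [MonoidHom.mem_ker] at h
  show mark w ∈ V J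
  rw [h]
  exact one_mem _

/-- An element that is killed by the marking of `HallG` and has a prescribed permutation. -/
lemma exists_adj (w : FreeGroup (Fin 3)) : ∃ v, mark v = 1 ∧ sHom v = sHom w := by
  obtain ⟨v, hv, h⟩ := exists_D kk w
  exact ⟨v, D_kk_le hv, h⟩

/-- The normal subgroup of the second family. -/
def NS (J : Set ℕ) : Subgroup (FreeGroup (Fin 3)) := NJ J ⊓ sHom.ker

instance (J : Set ℕ) : (NS J).Normal := by
  unfold NS; infer_instance

lemma NS_le_iff {I J : Set ℕ} : NS I ≤ NS J ↔ I ⊆ J := by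
  rw [← NJ_le_iff]
  constructor
  · intro h w hw
    obtain ⟨v, hv, hvs⟩ := exists_adj w
    have h1 : w * v⁻¹ ∈ NS I := by
      refine ⟨?_, ?_⟩
      · show mark (w * v⁻¹) ∈ V I
        rw [map_mul, map_inv, hv, inv_one, mul_one]
        exact hw
      · show sHom (w * v⁻¹) = 1
        rw [map_mul, map_inv, hvs, mul_inv_cancel]
    have h2 : mark (w * v⁻¹) ∈ V J := (h h1).1
    rw [map_mul, map_inv, hv, inv_one, mul_one] at h2
    exact h2
  · intro h
    exact inf_le_inf_right _ h

lemma NS_inj {I J : Set ℕ} (h : NS I = NS J) : I = J :=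
  Set.Subset.antisymm (NS_le_iff.1 h.le) (NS_le_iff.1 h.ge)

/-- Factorization of a surjection through the marking. -/
lemma factor {G : Type} [Group G] (φ : FreeGroup (Fin 3) →* G) (hφ : Function.Surjective φ)
    (h : ∀ w, mark w = 1 → φ w = 1) :
    ∃ π : HallG →* G, Function.Surjective π ∧ ∀ w, π (mark w) = φ w := by
  let π : HallG →* G := mark.liftOfSurjective mark_surjective ⟨φ, fun w hw => h w hw⟩
  have hπ : ∀ w, π (mark w) = φ w := fun w => MonoidHom.liftOfRightInverse_comp_apply _ _ _ _ _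
  refine ⟨π, fun y => ?_, hπ⟩
  obtain ⟨w, rfl⟩ := hφ y
  exact ⟨mark w, hπ w⟩

/-- Rigidity: two surjections of the free group onto the same group. -/
lemma rigid_two {G : Type} [Group G] (I J : Set ℕ) (φ ψ : FreeGroup (Fin 3) →* G)
    (hφ : Function.Surjective φ) (hψ : Function.Surjective ψ) (hI : NJ I ≤ φ.ker)
    (hJ : ψ.ker = NJ J) : I ⊆ J ∧ (φ.ker ≠ NJ I → I ≠ J) := by
  have hm : ∀ (J : Set ℕ) (w : FreeGroup (Fin 3)), mark w = 1 → w ∈ NJ J := by
    intro J w hw
    show mark w ∈ V J
    rw [hw]; exact one_mem _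
  obtain ⟨π, hπs, hπ⟩ := factor φ hφ (fun w hw => hI (hm I w hw))
  obtain ⟨ρ, hρs, hρ⟩ := factor ψ hψ (fun w hw => by
    have := hm J w hw
    rw [← hJ] at this
    exact this)
  have hρk : ρ.ker = V J := by
    ext x
    obtain ⟨w, rfl⟩ := mark_surjective x
    rw [MonoidHom.mem_ker, hρ, ← MonoidHom.mem_ker, hJ]
    exact Iff.rfl
  let e : HallG ⧸ V J ≃* G :=
    (QuotientGroup.quotientMulEquivOfEq hρk.symm).trans
      (QuotientGroup.quotientKerEquivOfSurjective ρ hρs)
  let σ : HallG →* HallG ⧸ V J := e.symm.toMonoidHom.comp π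
  have hσs : Function.Surjective σ := e.symm.surjective.comp hπs
  have hσk : ∀ x, σ x = 1 ↔ π x = 1 := by
    intro x
    show e.symm (π x) = 1 ↔ _
    rw [MulEquiv.map_eq_one_iff]
  have hIk : V I ≤ σ.ker := by
    intro x hx
    obtain ⟨w, rfl⟩ := mark_surjective x
    rw [MonoidHom.mem_ker, hσk, hπ]
    exact hI hx
  refine ⟨(rigid_subset I J σ hσs hIk).1, fun hne => ?_⟩
  refine (rigid I J σ hσs hIk ?_).2
  intro h
  apply hne
  ext w
  rw [MonoidHom.mem_ker, ← hπ, ← hσk, ← MonoidHom.mem_ker, h]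
  exact Iff.rfl

end Pool.Agent.H44I
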