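import Mathlib
import Pool.Agent.Lib.H44I.MarkedA

set_option autoImplicit false

open MeasureTheory

noncomputable section

namespace Pool.Agent.H44I

open Pool.Agent.S14935Aux Pool.Agent.S14935Aux.HallG

/-! ## Borel sets of marked groups -/

variable {n : ℕ}

lemma indicator_eq_true {N : MarkedGroup n} {g : FreeGroup (Fin n)} :
    N.indicator g = true ↔ g ∈ N.1 := by
  simp [MarkedGroup.indicator]

/-- A set of marked groups is Borel iff it is the preimage of a measurable set of functions. -/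
lemma borel_iff (A : Set (MarkedGroup n)) :
    @MeasurableSet (MarkedGroup n) (borel (MarkedGroup n)) A ↔
      ∃ A' : Set (FreeGroup (Fin n) → Bool), MeasurableSet A' ∧ MarkedGroup.indicator ⁻¹' A' = A := by
  have h : borel (MarkedGroup n) = (borel (FreeGroup (Fin n) → Bool)).comap
      MarkedGroup.indicator := by
    rw [← borel_comap]
  rw [h, ← BorelSpace.measurable_eq (α := FreeGroup (Fin n) → Bool)]
  exact Iff.rfl

lemma borel_preimage {A' : Set (FreeGroup (Fin n) → Bool)} (h : MeasurableSet A') :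
    @MeasurableSet (MarkedGroup n) (borel (MarkedGroup n)) (MarkedGroup.indicator ⁻¹' A') :=
  (borel_iff _).2 ⟨A', h, rfl⟩

lemma measurable_evaln (g : FreeGroup (Fin n)) :
    MeasurableSet {f : FreeGroup (Fin n) → Bool | f g = true} := by
  have h : Measurable fun f : FreeGroup (Fin n) → Bool => f g := measurable_pi_apply g
  exact h (measurableSet_singleton true)

lemma BorelIn.not {P : GroupProperty} (h : BorelIn n P) : BorelIn n fun G _ => ¬ P G :=
  @MeasurableSet.compl _ _ (borel (MarkedGroup n)) h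

lemma BorelIn.and {P Q : GroupProperty} (h : BorelIn n P) (h' : BorelIn n Q) :
    BorelIn n fun G _ => P G ∧ Q G :=
  @MeasurableSet.inter _ (borel (MarkedGroup n)) _ _ h h'

lemma BorelIn.or {P Q : GroupProperty} (h : BorelIn n P) (h' : BorelIn n Q) :
    BorelIn n fun G _ => P G ∨ Q G :=
  @MeasurableSet.union _ (borel (MarkedGroup n)) _ _ h h'

/-- The class of the groups that are isomorphic to a member of a set of marked groups. -/
def Cl (F : Set (FreeGroup (Fin 3) → Bool)) : GroupProperty := fun G _ =>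
  ∃ φ : FreeGroup (Fin 3) →* G, Function.Surjective φ ∧ ind φ.ker ∈ F

lemma Cl_iso {F : Set (FreeGroup (Fin 3) → Bool)} {G H : Type} [Group G] [Group H]
    (e : G ≃* H) (h : Cl F G) : Cl F H := by
  obtain ⟨φ, hφ, hF⟩ := h
  refine ⟨e.toMonoidHom.comp φ, e.surjective.comp hφ, ?_⟩
  have : (e.toMonoidHom.comp φ).ker = φ.ker := by
    ext w
    rw [MonoidHom.mem_ker, MonoidHom.mem_ker]
    show e (φ w) = 1 ↔ _
    rw [MulEquiv.map_eq_one_iff]
  rwa [this]

lemma Cl_invariant (F : Set (FreeGroup (Fin 3) → Bool)) : IsoInvariant (Cl F) := by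
  rintro G H _ _ ⟨e⟩
  exact ⟨Cl_iso e, Cl_iso e.symm⟩

/-- The isomorphism class of a Borel set of marked groups is Borel. -/
lemma borelIn_Cl {F : Set (FreeGroup (Fin 3) → Bool)} (hF : MeasurableSet F) (n : ℕ) :
    BorelIn n (Cl F) := by
  have hcount : Countable (FreeGroup (Fin 3) →* FreeGroup (Fin n)) :=
    Function.Injective.countable (f := fun φ : FreeGroup (Fin 3) →* FreeGroup (Fin n) =>
      fun i : Fin 3 => φ (FreeGroup.of i)) (by
        intro φ ψ h
        ext i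
        exact congrFun h i)
  have hA : MeasurableSet (⋃ φ : FreeGroup (Fin 3) →* FreeGroup (Fin n),
      ((⋂ g, ⋃ u, {f : FreeGroup (Fin n) → Bool | f ((φ u)⁻¹ * g) = true}) ∩
        (fun f : FreeGroup (Fin n) → Bool => f ∘ φ) ⁻¹' F)) := by
    refine MeasurableSet.iUnion fun φ => MeasurableSet.inter ?_ ?_
    · exact MeasurableSet.iInter fun g => MeasurableSet.iUnion fun u => measurable_evaln _
    · have hm : Measurable fun f : FreeGroup (Fin n) → Bool => f ∘ φ := by
        rw [measurable_pi_iff]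
        intro g
        exact measurable_pi_apply (φ g)
      exact hm hF
  have hset : {N : MarkedGroup n | Cl F (FreeGroup (Fin n) ⧸ N.1)} = MarkedGroup.indicator ⁻¹'
      (⋃ φ : FreeGroup (Fin 3) →* FreeGroup (Fin n),
      ((⋂ g, ⋃ u, {f : FreeGroup (Fin n) → Bool | f ((φ u)⁻¹ * g) = true}) ∩
        (fun f : FreeGroup (Fin n) → Bool => f ∘ φ) ⁻¹' F)) := by
    ext N
    simp only [Set.mem_ofPred_eq, Set.mem_preimage, Set.mem_iUnion, Set.mem_inter_iff,
      Set.mem_iInter, indicator_eq_true]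
    have key : ∀ ψ : FreeGroup (Fin 3) →* FreeGroup (Fin n),
        N.indicator ∘ ψ = ind ((QuotientGroup.mk' N.1).comp ψ).ker := by
      intro ψ
      funext w
      rw [Bool.eq_iff_iff, Function.comp_apply, indicator_eq_true, ind_eq_true,
        MonoidHom.mem_ker]
      exact (QuotientGroup.eq_one_iff _).symm
    constructor
    · rintro ⟨φ, hφ, hF'⟩
      let ψ : FreeGroup (Fin 3) →* FreeGroup (Fin n) :=
        FreeGroup.lift fun i => (φ (FreeGroup.of i)).out
      have hψ : (QuotientGroup.mk' N.1).comp ψ = φ := by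
        ext i
        simp [ψ]
      refine ⟨ψ, fun g => ?_, ?_⟩
      · obtain ⟨u, hu⟩ := hφ (QuotientGroup.mk g)
        refine ⟨u, ?_⟩
        rw [← QuotientGroup.eq, ← hu, ← hψ]
        rfl
      · rw [key, hψ]
        exact hF'
    · rintro ⟨ψ, hψ, hF'⟩
      refine ⟨(QuotientGroup.mk' N.1).comp ψ, fun y => ?_, ?_⟩
      · obtain ⟨g, rfl⟩ := QuotientGroup.mk_surjective y
        obtain ⟨u, hu⟩ := hψ g
        exact ⟨u, QuotientGroup.eq.2 hu⟩
      · rw [← key]
        exact hF'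
  unfold BorelIn
  rw [hset]
  exact borel_preimage hA

/-- Solvability is a Borel property. -/
lemma borelIn_solvable (n : ℕ) : BorelIn n fun G _ => Group.IsSolvable G := by
  have hset : {N : MarkedGroup n | Group.IsSolvable (FreeGroup (Fin n) ⧸ N.1)} =
      MarkedGroup.indicator ⁻¹' (⋃ k : ℕ, ⋂ w : FreeGroup (Fin n),
        {f | w ∈ derivedSeries (FreeGroup (Fin n)) k → f w = true}) := by
    ext N
    simp only [Set.mem_ofPred_eq, Set.mem_preimage, Set.mem_iUnion, Set.mem_iInter,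
      indicator_eq_true]
    rw [Group.isSolvable_def]
    refine exists_congr fun k => ?_
    have h1 : (derivedSeries (FreeGroup (Fin n)) k).map (QuotientGroup.mk' N.1) =
        derivedSeries (FreeGroup (Fin n) ⧸ N.1) k :=
      map_derivedSeries_eq (QuotientGroup.mk'_surjective N.1) k
    rw [← h1, Subgroup.map_eq_bot_iff, QuotientGroup.ker_mk']
    exact Iff.rfl
  unfold BorelIn
  rw [hset]
  refine borel_preimage (MeasurableSet.iUnion fun k => MeasurableSet.iInter fun w => ?_)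
  by_cases hw : w ∈ derivedSeries (FreeGroup (Fin n)) k
  · simp only [hw, forall_true_left]
    exact measurable_evaln w
  · simp only [hw, false_imp_iff]
    exact MeasurableSet.univ

/-! ## The codes -/

/-- The encoding of a point `(x, y, m)`. -/
def Jm (x : ℕ → Bool) (y : ℕ → ℕ) (m : ℕ) : Set ℕ :=
  Ix x ∪ {k | ∃ n, k = Encodable.encode (Sum.inr (n + m, y n) : (ℕ × Bool) ⊕ (ℕ × ℕ))}

lemma inl_mem_Jm {x : ℕ → Bool} {y : ℕ → ℕ} {m n : ℕ} {b : Bool} :
    Encodable.encode (Sum.inl (n, b) : (ℕ × Bool) ⊕ (ℕ × ℕ)) ∈ Jm x y m ↔ b = x n := by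
  constructor
  · rintro (h | ⟨m, hm⟩)
    · exact inl_mem_Ix.1 h
    · have := Encodable.encode_injective hm
      simp at this
  · rintro rfl
    exact Or.inl ⟨n, rfl⟩

lemma inr_mem_Jm {x : ℕ → Bool} {y : ℕ → ℕ} {m a b : ℕ} :
    Encodable.encode (Sum.inr (a, b) : (ℕ × Bool) ⊕ (ℕ × ℕ)) ∈ Jm x y m ↔
      ∃ n, a = n + m ∧ b = y n := by
  constructor
  · rintro (h | ⟨k, hk⟩)
    · exact absurd h inr_not_mem_Ix
    · have := Encodable.encode_injective hk
      simp only [Sum.inr.injEq, Prod.mk.injEq] at this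
      exact ⟨k, this⟩
  · rintro ⟨n, rfl, rfl⟩
    exact Or.inr ⟨n, rfl⟩

lemma Ix_subset_Jm {x x' : ℕ → Bool} {y : ℕ → ℕ} {m : ℕ} (h : Ix x ⊆ Jm x' y m) : x = x' := by
  funext n
  exact inl_mem_Jm.1 (h (inl_mem_Ix.2 rfl))

lemma Jm_le {x x' : ℕ → Bool} {y y' : ℕ → ℕ} {m m' : ℕ} (h : Jm x y m = Jm x' y' m') :
    m' ≤ m := by
  have h1 : Encodable.encode (Sum.inr (0 + m, y 0) : (ℕ × Bool) ⊕ (ℕ × ℕ)) ∈ Jm x' y' m' :=
    h ▸ inr_mem_Jm.2 ⟨0, rfl, rfl⟩
  obtain ⟨n, hn, -⟩ := inr_mem_Jm.1 h1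
  omega

lemma Jm_inj {x x' : ℕ → Bool} {y y' : ℕ → ℕ} {m m' : ℕ} (h : Jm x y m = Jm x' y' m') :
    x = x' ∧ y = y' ∧ m = m' := by
  have hm : m = m' := le_antisymm (Jm_le h.symm) (Jm_le h)
  subst hm
  refine ⟨?_, ?_, rfl⟩
  · funext n
    have : Encodable.encode (Sum.inl (n, x n) : (ℕ × Bool) ⊕ (ℕ × ℕ)) ∈ Jm x' y' m :=
      h ▸ inl_mem_Jm.2 rfl
    exact inl_mem_Jm.1 this
  · funext n
    have : Encodable.encode (Sum.inr (n + m, y n) : (ℕ × Bool) ⊕ (ℕ × ℕ)) ∈ Jm x' y' m :=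
      h ▸ inr_mem_Jm.2 ⟨n, rfl, rfl⟩
    obtain ⟨k, hk, hk'⟩ := inr_mem_Jm.1 this
    have : n = k := by omega
    rw [hk', this]

/-- Every index outside of the code of `x` is outside of some code of `(x, y, m)`. -/
lemma exists_not_mem_Jm {x : ℕ → Bool} (y : ℕ → ℕ) {i : ℕ} (hi : i ∉ Ix x) :
    ∃ m, i ∉ Jm x y m := by
  by_contra h
  push Not at h
  rcases h 0 with h0 | ⟨a, ha⟩
  · exact hi h0
  · rcases h (a + 1) with h1 | ⟨b, hb⟩
    · exact hi h1
    · have := Encodable.encode_injective (ha.symm.trans hb)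
      simp only [Sum.inr.injEq, Prod.mk.injEq] at this
      omega

lemma measurable_Jm (i : ℕ) :
    MeasurableSet {p : (ℕ → Bool) × (ℕ → ℕ) × ℕ | i ∈ Jm p.1 p.2.1 p.2.2} := by
  have : {p : (ℕ → Bool) × (ℕ → ℕ) × ℕ | i ∈ Jm p.1 p.2.1 p.2.2} =
      Prod.fst ⁻¹' {x : ℕ → Bool | i ∈ Ix x} ∪ ⋃ n : ℕ, {p : (ℕ → Bool) × (ℕ → ℕ) × ℕ |
      i = Encodable.encode (Sum.inr (n + p.2.2, p.2.1 n) : (ℕ × Bool) ⊕ (ℕ × ℕ))} := by
    ext p
    simp [Jm]
  rw [this]
  refine MeasurableSet.union (measurable_fst (measurable_Ix i)) (MeasurableSet.iUnion fun n => ?_)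
  have h1 : Measurable fun p : (ℕ → Bool) × (ℕ → ℕ) × ℕ => (p.2.2, p.2.1 n) :=
    (measurable_snd.comp measurable_snd).prodMk
      ((measurable_pi_apply n).comp (measurable_fst.comp measurable_snd))
  exact h1 (MeasurableSet.of_discrete (s := {b : ℕ × ℕ |
    i = Encodable.encode (Sum.inr (n + b.1, b.2) : (ℕ × Bool) ⊕ (ℕ × ℕ))}))

/-- The Borel family of marked groups of the second kind. -/
def BS (C : Set ((ℕ → Bool) × (ℕ → ℕ))) : Set (FreeGroup (Fin 3) → Bool) :=
  (fun p : (ℕ → Bool) × (ℕ → ℕ) × ℕ => ind (NS (Jm p.1 p.2.1 p.2.2))) ''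
    {p | (p.1, p.2.1) ∈ C}

lemma measurable_ind_NS {X : Type*} [MeasurableSpace X] (J : X → Set ℕ)
    (hJ : ∀ i, MeasurableSet {x | i ∈ J x}) : Measurable fun x => ind (NS (J x)) := by
  have h := measurable_ind_NJ J hJ
  rw [measurable_pi_iff] at h ⊢
  intro g
  by_cases hg : sHom g = 1
  · have : (fun x => ind (NS (J x)) g) = fun x => ind (NJ (J x)) g := by
      funext x
      rw [Bool.eq_iff_iff, ind_eq_true, ind_eq_true]
      exact ⟨fun h => h.1, fun h => ⟨h, hg⟩⟩
    rw [this]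
    exact h g
  · have : (fun x => ind (NS (J x)) g) = fun _ => false := by
      funext x
      rw [Bool.eq_iff_iff, ind_eq_true]
      simp only [Bool.false_eq_true, iff_false]
      exact fun h => hg h.2
    rw [this]
    exact measurable_const

lemma measurable_BS {C : Set ((ℕ → Bool) × (ℕ → ℕ))} (hC : MeasurableSet C) :
    MeasurableSet (BS C) := by
  have hC' : MeasurableSet {p : (ℕ → Bool) × (ℕ → ℕ) × ℕ | (p.1, p.2.1) ∈ C} := by
    have h : Measurable fun p : (ℕ → Bool) × (ℕ → ℕ) × ℕ => (p.1, p.2.1) :=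
      measurable_fst.prodMk (measurable_fst.comp measurable_snd)
    exact h hC
  apply hC'.image_of_measurable_injOn
  · exact measurable_ind_NS (fun p : (ℕ → Bool) × (ℕ → ℕ) × ℕ => Jm p.1 p.2.1 p.2.2) measurable_Jm
  · intro p _ p' _ h
    obtain ⟨h1, h2, h3⟩ := Jm_inj (NS_inj (ind_inj h))
    exact Prod.ext h1 (Prod.ext h2 h3)

end Pool.Agent.H44I
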