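import Mathlib
import Pool.Agent.Lib.H44I.MarkedB

set_option autoImplicit false

open MeasureTheory

noncomputable section

namespace Pool.Agent.H44I

open Pool.Agent.S14935Aux Pool.Agent.S14935Aux.HallG

/-- The property: solvable and not in the first family, or in the second family. -/
def PP (C : Set ((ℕ → Bool) × (ℕ → ℕ))) : GroupProperty := fun G _ =>
  (Group.IsSolvable G ∧ ¬ Cl (BB C) G) ∨ Cl (BS C) G

lemma PP_invariant (C : Set ((ℕ → Bool) × (ℕ → ℕ))) : IsoInvariant (PP C) := by
  rintro G H _ _ ⟨e⟩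
  have h1 : Group.IsSolvable G ↔ Group.IsSolvable H :=
    ⟨fun _ => Group.isSolvable_of_surjective (f := e.toMonoidHom) e.surjective,
      fun _ => Group.isSolvable_of_surjective (f := e.symm.toMonoidHom) e.symm.surjective⟩
  have h2 := Cl_invariant (BB C) G H ⟨e⟩
  have h3 := Cl_invariant (BS C) G H ⟨e⟩
  unfold PP
  rw [h1, h2, h3]

lemma borelIn_PP {C : Set ((ℕ → Bool) × (ℕ → ℕ))} (hC : MeasurableSet C) (n : ℕ) :
    BorelIn n (PP C) :=
  ((borelIn_solvable n).and (borelIn_Cl (measurable_BB hC) n).not).or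
    (borelIn_Cl (measurable_BS hC) n)

/-- A surjection onto a solvable group kills a derived subgroup. -/
lemma D_le_of_solvable {G : Type} [Group G] (φ : FreeGroup (Fin 3) →* G)
    (hG : Group.IsSolvable G) : ∃ k, derivedSeries (FreeGroup (Fin 3)) k ≤ φ.ker := by
  obtain ⟨k, hk⟩ := (Group.isSolvable_def G).1 hG
  refine ⟨k, ?_⟩
  rw [← Subgroup.map_eq_bot_iff, eq_bot_iff, ← hk]
  exact map_derivedSeries_le_derivedSeries _ _

/-- The kernel of a homomorphism to a solvable group is not contained in the kernel of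
`sHom`. -/
lemma not_le_of_solvable {G : Type} [Group G] (φ : FreeGroup (Fin 3) →* G)
    (hG : Group.IsSolvable G) : ¬ φ.ker ≤ sHom.ker := by
  intro h
  obtain ⟨k, hk⟩ := D_le_of_solvable φ hG
  obtain ⟨v, hv, hvs⟩ := exists_D k (FreeGroup.of 0)
  have h1 : sHom v = 1 := h (hk hv)
  have h2 : sHom (FreeGroup.of 0) = pa := by simp [sHom]
  rw [h1, h2] at hvs
  exact pa_ne hvs.symm

lemma not_Cl_BS_of_solvable {C : Set ((ℕ → Bool) × (ℕ → ℕ))} {G : Type} [Group G]
    (hG : Group.IsSolvable G) : ¬ Cl (BS C) G := by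
  rintro ⟨φ, hφ, p, hp, h⟩
  apply not_le_of_solvable φ hG
  rw [← ind_inj h]
  exact inf_le_right

/-- Groups of the first family are solvable. -/
lemma solvable_of_NJ {G : Type} [Group G] {J : Set ℕ} (φ : FreeGroup (Fin 3) →* G)
    (hφ : Function.Surjective φ) (h : NJ J ≤ φ.ker) : Group.IsSolvable G := by
  obtain ⟨π, hπs, -⟩ := factor φ hφ (fun w hw => h (by
    show mark w ∈ V J
    rw [hw]; exact one_mem _))
  exact Group.isSolvable_of_surjective (f := π) hπs

lemma ker_mk_comp {G : Type} [Group G] (φ : FreeGroup (Fin 3) →* G) (M : Subgroup G) [M.Normal] :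
    ((QuotientGroup.mk' M).comp φ).ker = M.comap φ := by
  rw [← MonoidHom.comap_ker, QuotientGroup.ker_mk']

/-- The just-non-`P` members of the first family. -/
lemma justNon_iff (C : Set ((ℕ → Bool) × (ℕ → ℕ))) (x : ℕ → Bool) {G : Type} [Group G]
    (φ : FreeGroup (Fin 3) →* G) (hφ : Function.Surjective φ) (hk : φ.ker = NJ (Ix x)) :
    JustNon (PP C) G ↔ ¬ ∃ y, (x, y) ∈ C := by
  have hG : Group.IsSolvable G := solvable_of_NJ φ hφ hk.ge
  have hmem : Cl (BB C) G := ⟨φ, hφ, Or.inl ⟨x, by rw [hk]⟩⟩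
  constructor
  · rintro ⟨-, h⟩ ⟨y, hy⟩
    have hle : NJ (Ix x) ≤ NJ (Jxy x y) := NJ_le_iff.2 Set.subset_union_left
    let M : Subgroup G := (NJ (Jxy x y)).map φ
    have hM : M.Normal := Subgroup.Normal.map inferInstance φ hφ
    have hcomap : M.comap φ = NJ (Jxy x y) := by
      show ((NJ (Jxy x y)).map φ).comap φ = _
      rw [Subgroup.comap_map_eq, hk, sup_eq_left]
      exact hle
    have hM1 : M ≠ ⊥ := by
      intro h1
      rw [h1, MonoidHom.comap_bot, hk] at hcomap
      have h3 : Encodable.encode (Sum.inr (0, y 0) : (ℕ × Bool) ⊕ (ℕ × ℕ)) ∈ Ix x :=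
        (NJ_inj hcomap) ▸ inr_mem_Jxy.2 rfl
      exact inr_not_mem_Ix h3
    have hs : Group.IsSolvable (G ⧸ M) := inferInstance
    rcases h M hM1 with ⟨-, h2⟩ | h2
    · apply h2
      refine ⟨(QuotientGroup.mk' M).comp φ, (QuotientGroup.mk'_surjective M).comp hφ,
        Or.inr ⟨(x, y), hy, ?_⟩⟩
      rw [ker_mk_comp, hcomap]
    · exact not_Cl_BS_of_solvable hs h2
  · intro hx
    refine ⟨?_, ?_⟩
    · rintro (⟨-, h2⟩ | h2)
      · exact h2 hmem
      · exact not_Cl_BS_of_solvable hG h2
    · intro M hM hM1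
      refine Or.inl ⟨inferInstance, ?_⟩
      rintro ⟨ψ, hψ, hB⟩
      have hs : Function.Surjective ((QuotientGroup.mk' M).comp φ) :=
        (QuotientGroup.mk'_surjective M).comp hφ
      have hle : NJ (Ix x) ≤ ((QuotientGroup.mk' M).comp φ).ker := by
        rw [ker_mk_comp, ← hk]
        exact MonoidHom.ker_le_comap φ M
      have hne : ((QuotientGroup.mk' M).comp φ).ker ≠ NJ (Ix x) := by
        rw [ker_mk_comp, ← hk]
        intro h
        apply hM1
        rw [eq_bot_iff]
        intro g hg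
        obtain ⟨w, rfl⟩ := hφ g
        have : w ∈ φ.ker := by rw [← h]; exact hg
        exact this
      rcases hB with ⟨x', hx'⟩ | ⟨⟨x', y'⟩, hxy', hx'⟩
      · obtain ⟨ha, hb⟩ := rigid_two _ _ _ ψ hs hψ hle (ind_inj hx').symm
        exact hb hne (congrArg Ix (Ix_subset_Ix ha))
      · obtain ⟨ha, -⟩ := rigid_two _ _ _ ψ hs hψ hle (ind_inj hx').symm
        have := Ix_subset_Jxy ha
        subst this
        exact hx ⟨y', hxy'⟩

/-- The residually-`P` members of the second family. -/
lemma residually_iff (C : Set ((ℕ → Bool) × (ℕ → ℕ))) (x : ℕ → Bool) {G : Type} [Group G]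
    (φ : FreeGroup (Fin 3) →* G) (hφ : Function.Surjective φ) (hk : φ.ker = NS (Ix x)) :
    Residually (PP C) G ↔ ∃ y, (x, y) ∈ C := by
  constructor
  · intro h
    -- a nontrivial element of the derived subgroup that is killed by the marking of `HallG`
    obtain ⟨v, hv, hvs⟩ := exists_D kk (FreeGroup.of 0)
    have hv1 : sHom v ≠ 1 := by
      rw [hvs]
      have h2 : sHom (FreeGroup.of 0) = pa := by simp [sHom]
      rw [h2]; exact pa_ne
    have hg : φ v ≠ 1 := by
      intro h1
      have h2 : v ∈ NS (Ix x) := by rw [← hk]; exact h1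
      exact hv1 h2.2
    obtain ⟨M, hM, hgM, hP⟩ := h (φ v) hg
    let θ : FreeGroup (Fin 3) →* G ⧸ M := (QuotientGroup.mk' M).comp φ
    have hθ : Function.Surjective θ := (QuotientGroup.mk'_surjective M).comp hφ
    have hθk : NS (Ix x) ≤ θ.ker := by
      show NS (Ix x) ≤ ((QuotientGroup.mk' M).comp φ).ker
      rw [ker_mk_comp, ← hk]
      exact MonoidHom.ker_le_comap φ M
    have hvθ : v ∉ θ.ker := by
      intro h1
      apply hgM
      have h2 : v ∈ ((QuotientGroup.mk' M).comp φ).ker := h1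
      rw [ker_mk_comp] at h2
      exact h2
    have hns : ¬ Group.IsSolvable (G ⧸ M) := by
      intro hs
      obtain ⟨k, hk'⟩ := D_le_of_solvable θ hs
      obtain ⟨w, hw, hws⟩ := exists_D (max k kk) v
      have hwk : w ∈ derivedSeries (FreeGroup (Fin 3)) k :=
        derivedSeries_antitone _ (le_max_left _ _) hw
      have hwkk : w ∈ derivedSeries (FreeGroup (Fin 3)) kk :=
        derivedSeries_antitone _ (le_max_right _ _) hw
      have h1 : v * w⁻¹ ∈ NS (Ix x) := by
        refine ⟨D_kk_le_NJ _ (mul_mem hv (inv_mem hwkk)), ?_⟩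
        show sHom (v * w⁻¹) = 1
        rw [map_mul, map_inv, hws, mul_inv_cancel]
      apply hvθ
      have h2 : v = v * w⁻¹ * w := by group
      rw [h2]
      exact mul_mem (hθk h1) (hk' hwk)
    rcases hP with ⟨hs, -⟩ | ⟨ψ, hψ, ⟨⟨x', y', m⟩, hC, hind⟩⟩
    · exact absurd hs hns
    · have hψk : ψ.ker = NS (Jm x' y' m) := (ind_inj hind).symm
      -- the common quotient
      let W : Subgroup (G ⧸ M) := (NJ (Jm x' y' m)).map ψ
      have hW : W.Normal := Subgroup.Normal.map inferInstance ψ hψ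
      have h1 : ((QuotientGroup.mk' W).comp ψ).ker = NJ (Jm x' y' m) := by
        rw [ker_mk_comp]
        show ((NJ (Jm x' y' m)).map ψ).comap ψ = _
        rw [Subgroup.comap_map_eq, hψk, sup_eq_left]
        exact inf_le_left
      have hs1 : Function.Surjective ((QuotientGroup.mk' W).comp ψ) :=
        (QuotientGroup.mk'_surjective W).comp hψ
      have hs2 : Function.Surjective ((QuotientGroup.mk' W).comp θ) :=
        (QuotientGroup.mk'_surjective W).comp hθ
      have hDk : derivedSeries (FreeGroup (Fin 3)) kk ≤ ((QuotientGroup.mk' W).comp θ).ker := by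
        rw [← Subgroup.map_eq_bot_iff]
        rw [map_derivedSeries_eq hs2, ← map_derivedSeries_eq hs1, Subgroup.map_eq_bot_iff, h1]
        exact D_kk_le_NJ _
      have h2 : NJ (Ix x) ≤ ((QuotientGroup.mk' W).comp θ).ker := by
        intro w hw
        obtain ⟨u, hu, hus⟩ := exists_D kk w
        have h3 : w * u⁻¹ ∈ NS (Ix x) := by
          refine ⟨(NJ (Ix x)).mul_mem hw ((NJ (Ix x)).inv_mem (D_kk_le_NJ _ hu)), ?_⟩
          show sHom (w * u⁻¹) = 1
          rw [map_mul, map_inv, hus, mul_inv_cancel]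
        have h4 : w = w * u⁻¹ * u := by group
        rw [h4]
        refine mul_mem ?_ (hDk hu)
        rw [MonoidHom.mem_ker, MonoidHom.comp_apply]
        have h5 : θ (w * u⁻¹) = 1 := hθk h3
        rw [h5, map_one]
      obtain ⟨ha, -⟩ := rigid_two _ _ _ _ hs2 hs1 h2 h1
      have := Ix_subset_Jm ha
      subst this
      exact ⟨y', hC⟩
  · rintro ⟨y, hy⟩ g hg
    obtain ⟨w, rfl⟩ := hφ g
    have hw : w ∉ NS (Ix x) := by rw [← hk]; exact hg
    have hm : ∃ m, w ∉ NS (Jm x y m) := by
      by_cases hws : sHom w = 1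
      · have hwJ : w ∉ NJ (Ix x) := fun h => hw ⟨h, hws⟩
        by_cases hq : toQ (mark w) = 1
        · have h1 : mark w = z (mark w).h := toQ_eq_one.1 hq
          have h2 : (mark w).h ∉ K (Ix x) := by
            intro h3
            apply hwJ
            show mark w ∈ V (Ix x)
            rw [h1, z_mem_V]
            exact h3
          rw [mem_K] at h2
          push Not at h2
          obtain ⟨i, hi, hdiv⟩ := h2
          obtain ⟨m, hm⟩ := exists_not_mem_Jm y hi
          refine ⟨m, fun h => ?_⟩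
          have h3 : mark w ∈ V (Jm x y m) := h.1
          rw [h1, z_mem_V, mem_K] at h3
          exact hdiv (h3 i hm)
        · exact ⟨0, fun h => hq (V_le_ker_toQ _ (show mark w ∈ V _ from h.1))⟩
      · exact ⟨0, fun h => hws h.2⟩
    obtain ⟨m, hm⟩ := hm
    have hle : NS (Ix x) ≤ NS (Jm x y m) := NS_le_iff.2 Set.subset_union_left
    have hcomap : ((NS (Jm x y m)).map φ).comap φ = NS (Jm x y m) := by
      rw [Subgroup.comap_map_eq, hk, sup_eq_left]
      exact hle
    have hM : ((NS (Jm x y m)).map φ).Normal := Subgroup.Normal.map inferInstance φ hφ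
    refine ⟨(NS (Jm x y m)).map φ, hM, ?_, Or.inr ⟨(QuotientGroup.mk' _).comp φ,
      (QuotientGroup.mk'_surjective _).comp hφ, ⟨(x, y, m), hy, ?_⟩⟩⟩
    · intro h
      apply hm
      rw [← hcomap]
      exact h
    · rw [ker_mk_comp, hcomap]

/-! ## More generators -/

/-- The inclusion of the free group on three generators. -/
def incl {n : ℕ} (h : 3 ≤ n) : FreeGroup (Fin 3) →* FreeGroup (Fin n) :=
  FreeGroup.map (Fin.castLE h)

/-- The retraction onto the free group on three generators. -/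
def retr (n : ℕ) : FreeGroup (Fin n) →* FreeGroup (Fin 3) :=
  FreeGroup.lift fun i => if hi : (i : ℕ) < 3 then FreeGroup.of ⟨i, hi⟩ else 1

lemma retr_incl {n : ℕ} (h : 3 ≤ n) (w : FreeGroup (Fin 3)) : retr n (incl h w) = w := by
  have : (retr n).comp (incl h) = MonoidHom.id _ := by
    ext i
    simp [retr, incl]
  exact DFunLike.congr_fun this w

/-- The marked group on `n` generators with the same quotient. -/
def up (n : ℕ) (N : Subgroup (FreeGroup (Fin 3))) (hN : N.Normal) : MarkedGroup n :=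
  ⟨N.comap (retr n), hN.comap _⟩

lemma up_spec {n : ℕ} (h : 3 ≤ n) (N : Subgroup (FreeGroup (Fin 3))) (hN : N.Normal) :
    ∃ φ : FreeGroup (Fin 3) →* FreeGroup (Fin n) ⧸ (up n N hN).1,
      Function.Surjective φ ∧ φ.ker = N := by
  refine ⟨(QuotientGroup.mk' _).comp (incl h), fun y => ?_, ?_⟩
  · obtain ⟨g, rfl⟩ := QuotientGroup.mk_surjective y
    refine ⟨retr n g, QuotientGroup.eq.2 ?_⟩
    show retr n ((incl h (retr n g))⁻¹ * g) ∈ N
    rw [map_mul, map_inv, retr_incl, inv_mul_cancel]
    exact one_mem _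
  · rw [ker_mk_comp]
    ext w
    show retr n (incl h w) ∈ N ↔ _
    rw [retr_incl]

lemma up_indicator {n : ℕ} (N : Subgroup (FreeGroup (Fin 3))) (hN : N.Normal) :
    (up n N hN).indicator = ind N ∘ retr n := by
  funext g
  rw [Bool.eq_iff_iff, indicator_eq_true, Function.comp_apply, ind_eq_true]
  exact Iff.rfl

lemma not_borel {n : ℕ} {Q : GroupProperty} {D : Set (ℕ → Bool)} (hD : ¬ MeasurableSet D)
    (N : (ℕ → Bool) → Subgroup (FreeGroup (Fin 3))) (hN : ∀ x, (N x).Normal)
    (hm : Measurable fun x => ind (N x))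
    (h : ∀ x, Q (FreeGroup (Fin n) ⧸ (up n (N x) (hN x)).1) ↔ x ∈ D) : ¬ BorelIn n Q := by
  intro hB
  obtain ⟨A', hA', hA⟩ := (borel_iff _).1 hB
  apply hD
  have h1 : Measurable fun x => (up n (N x) (hN x)).indicator := by
    have h2 : (fun x => (up n (N x) (hN x)).indicator) =
        (fun f : FreeGroup (Fin 3) → Bool => f ∘ retr n) ∘ fun x => ind (N x) := by
      funext x
      exact up_indicator _ _
    rw [h2]
    refine Measurable.comp ?_ hm
    rw [measurable_pi_iff]
    intro g
    exact measurable_pi_apply (retr n g)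
  have h2 : D = (fun x => (up n (N x) (hN x)).indicator) ⁻¹' A' := by
    ext x
    rw [← h x]
    have h3 : (up n (N x) (hN x)) ∈ MarkedGroup.indicator ⁻¹' A' ↔
        Q (FreeGroup (Fin n) ⧸ (up n (N x) (hN x)).1) := by
      rw [hA]
      exact Iff.rfl
    exact h3.symm
  rw [h2]
  exact h1 hA'

/-- The main theorem. -/
theorem exists_property :
    ∃ P : GroupProperty, IsoInvariant P ∧ (∀ n, BorelIn n P) ∧
      ∀ n, 3 ≤ n → ¬ BorelIn n (JustNon P) ∧ ¬ BorelIn n (Residually P) := by
  obtain ⟨C, hC, hCn⟩ := exists_measurable_nonmeasurable_proj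
  refine ⟨PP C, PP_invariant C, borelIn_PP hC, fun n hn => ⟨?_, ?_⟩⟩
  · have hCn' : ¬ MeasurableSet {x : ℕ → Bool | ∃ y, (x, y) ∈ C}ᶜ := by
      intro h
      apply hCn
      have := h.compl
      rwa [compl_compl] at this
    refine not_borel hCn' (fun x => NJ (Ix x)) (fun x => inferInstance)
      (measurable_ind_NJ _ measurable_Ix) fun x => ?_
    obtain ⟨φ, hφ, hk⟩ := up_spec hn (NJ (Ix x)) inferInstance
    exact justNon_iff C x φ hφ hk
  · refine not_borel hCn (fun x => NS (Ix x)) (fun x => inferInstance)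
      (measurable_ind_NS _ measurable_Ix) fun x => ?_
    obtain ⟨φ, hφ, hk⟩ := up_spec hn (NS (Ix x)) inferInstance
    exact residually_iff C x φ hφ hk

end Pool.Agent.H44I
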